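import Pool.Agent.Mg.F810665.G0c94cf

namespace Pool.Agent.MP_8299d6_al.Old.UpperSL

open Pool.Agent.MP_8299d6_al

theorem result (d : ℕ) (hd : 4 ≤ d) (Γ : Subgroup (Matrix.SpecialLinearGroup (Fin d) ℚ))
    (hΓ : Γ.Commensurable (Matrix.SpecialLinearGroup.map (Int.castRingHom ℚ)).range) :
    abscissa Γ ≤ 1 :=
  Up.main d hd Γ hΓ

end Pool.Agent.MP_8299d6_al.Old.UpperSL
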